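import Pool.Agent.H54.RP.Fin

/-!
# MP_5f065d_co: the cases d = 3 and d = 4

Let `G` be the union of a forest `F₁` and a forest `F₂` whose components have diameter at most `4`.
Then `G` has a partition into two forests whose components have diameter at most `34560`.

Proof idea. Remove the edges of `F₂` from `F₁`, root `F₁` anywhere and `F₂` at centres, so that the
levels in `F₂` are at most `2`. If no parent in `F₁` of a root of `F₂` lay in the tree of that root,
one could order the vertices by words of letters along the tree paths of `F₂`, and use for the two
new forests the parent edges which go up in this order and in the reversed order. Otherwise the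
path of `F₁` from the root `r` is followed inside the tree of `r`, up to a vertex `E` which is
chosen with care (in most cases the last one in the tree), the part of the path before `E` is
directed towards `r`, and the one or two edges of `F₂` from `r` to `E` are directed away from `r`;
the two edges leaving `E`, and those leaving the vertex between `r` and `E`, get different colours.
-/

set_option autoImplicit false

namespace Pool.Agent.Results.MP_5f065d_co.DiameterFour

theorem result (V : Type) [Fintype V] (G F₁ F₂ : SimpleGraph V) (hF₁ : F₁.IsAcyclic)
    (hF₂ : F₂.IsAcyclic) (hd : ∀ u v : V, F₂.Reachable u v → F₂.dist u v ≤ 4)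
    (hG : G = F₁ ⊔ F₂) :
    ∃ H₁ H₂ : SimpleGraph V, H₁ ⊔ H₂ = G ∧ Disjoint H₁ H₂ ∧ H₁.IsAcyclic ∧ H₂.IsAcyclic ∧
      (∀ u v : V, H₁.Reachable u v → H₁.dist u v ≤ 34560) ∧
      (∀ u v : V, H₂.Reachable u v → H₂.dist u v ≤ 34560) := by
  subst hG
  exact Pool.Agent.H54.RP.repartition_four F₁ F₂ hF₁ hF₂ hd

end Pool.Agent.Results.MP_5f065d_co.DiameterFour
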